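import Pool.Agent.W747.MB.Defs

/-! # MB-STG -/

set_option autoImplicit false

open Metric MeasureTheory Set

namespace Pool.Agent.W613.MB

open Pool.Agent.W747.MB

theorem pow_big (n : ℕ) (hn : 10 ^ 6 ≤ n) : 13 * (n : ℝ) ≤ (101 / 100 : ℝ) ^ n := by
  have hn' : (10 : ℝ) ^ 6 ≤ n := by exact_mod_cast hn
  obtain ⟨m, hm⟩ : ∃ m, m = n / 2 := ⟨_, rfl⟩
  have h2 : 2 * m ≤ n := by omega
  have h3 : n ≤ 2 * m + 1 := by omega
  have h3' : (n : ℝ) ≤ 2 * m + 1 := by exact_mod_cast h3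
  have h4 := one_add_mul_le_pow (a := (1 / 100 : ℝ)) (by norm_num) m
  have h5 : (101 / 100 : ℝ) ^ (2 * m) ≤ (101 / 100 : ℝ) ^ n :=
    pow_le_pow_right₀ (by norm_num) h2
  have h6 : (1 + (m : ℝ) * (1 / 100)) ^ 2 ≤ (101 / 100 : ℝ) ^ (2 * m) := by
    rw [mul_comm 2 m, pow_mul]
    refine pow_le_pow_left₀ (by positivity) ?_ 2
    calc 1 + (m : ℝ) * (1 / 100) ≤ (1 + 1 / 100) ^ m := h4
      _ = (101 / 100 : ℝ) ^ m := by norm_num
  have h7 : (n : ℝ) / 200 ≤ 1 + (m : ℝ) * (1 / 100) := by linarith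
  have h8 : ((n : ℝ) / 200) ^ 2 ≤ (1 + (m : ℝ) * (1 / 100)) ^ 2 :=
    pow_le_pow_left₀ (by positivity) h7 2
  have h9 : 13 * (n : ℝ) ≤ ((n : ℝ) / 200) ^ 2 := by nlinarith
  linarith

/-- from the size of the `n`-th power to the size -/
theorem root_bounds (n : ℕ) (hn : 10 ^ 6 ≤ n) (a y : ℝ) (ha : 0 ≤ a)
    (hy1 : 49 / 200 ≤ y) (hy2 : y ≤ 307 / 100 * n) (h1 : 1 ≤ y * a ^ n) (h2 : y * a ^ n ≤ 3 * n) :
    99 / 100 ≤ a ∧ a ≤ 101 / 100 := by
  have hn' : (10 : ℝ) ^ 6 ≤ n := by exact_mod_cast hn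
  have hb := pow_big n hn
  constructor
  · by_contra hcon
    push Not at hcon
    have h3 : a ^ n ≤ (99 / 100 : ℝ) ^ n := pow_le_pow_left₀ ha hcon.le n
    have h4 : (99 / 100 : ℝ) ^ n * (101 / 100 : ℝ) ^ n ≤ 1 := by
      rw [← mul_pow]
      exact pow_le_one₀ (by norm_num) (by norm_num)
    have h5 : a ^ n * (101 / 100 : ℝ) ^ n ≤ 1 :=
      (mul_le_mul_of_nonneg_right h3 (by positivity)).trans h4
    have h6 : a ^ n * (13 * (n : ℝ)) ≤ 1 :=
      (mul_le_mul_of_nonneg_left hb (by positivity)).trans h5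
    have h7 : y * a ^ n ≤ 307 / 100 * n * a ^ n :=
      mul_le_mul_of_nonneg_right hy2 (by positivity)
    nlinarith
  · by_contra hcon
    push Not at hcon
    have h3 : (101 / 100 : ℝ) ^ n ≤ a ^ n := pow_le_pow_left₀ (by norm_num) hcon.le n
    have h4 : 49 / 200 * (13 * (n : ℝ)) ≤ y * a ^ n :=
      mul_le_mul hy1 (hb.trans h3) (by positivity) (by linarith)
    linarith

theorem main (hV : P_VAR) : P_STG := by
  intro n hn c₀ c₁ j hG hs1 hs2 hY1 hY2 hc₁ hX1 hX2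
  have hn' : (10 : ℝ) ^ 6 ≤ n := by exact_mod_cast hn
  have hn2 : 2 ≤ n := by omega
  have hn0 : (0 : ℝ) < n := by linarith
  set L0 : ℝ := ‖L n c₀ j‖ with hL0
  have hL0p : 0 < L0 := norm_pos_iff.2 hG.L0
  have hvar := hV n hn2 c₀ j hG
  have hdd : dd n c₀ j ⊆ DD n c₀ j := by
    unfold dd DD
    refine closedBall_subset_closedBall ?_
    rw [← hL0]
    exact one_div_le_one_div_of_le (by positivity) (by linarith)
  have hc₁D := hdd hc₁
  -- uniform facts on DD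
  have hfacts : ∀ c ∈ DD n c₀ j, 49 / 50 * L0 ≤ ‖L n c j‖ ∧ ‖L n c j‖ ≤ 51 / 50 * L0 ∧
      9800 ≤ ‖X n c j‖ ∧ 49 / 200 ≤ Y n c ∧ Y n c ≤ 307 / 100 * n := by
    intro c hc
    obtain ⟨h1, h2, h3⟩ := hvar c hc
    have e1 := abs_norm_sub_norm_le (L n c j) (L n c₀ j)
    have e2 := abs_norm_sub_norm_le (X n c j) (X n c₀ j)
    rw [abs_le] at e1 e2 h3
    refine ⟨?_, ?_, ?_, ?_, ?_⟩
    · linarith [e1.1]
    · linarith [e1.2]
    · linarith [e2.1]
    · linarith [h3.1]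
    · linarith [h3.2]
  obtain ⟨hl1, hl2, hx1, hy1, hy2⟩ := hfacts c₁ hc₁D
  have hXs : ∀ c, ‖X n c (j + 1)‖ = Y n c * ‖A n c j‖ ^ n := by
    intro c
    change ‖(n : ℂ) * c ^ (n - 1) * (1 + X n c j / n) ^ n‖ = _
    rw [norm_mul, norm_mul, norm_pow, norm_pow, Complex.norm_natCast]
    rfl
  rw [hXs] at hX1 hX2
  obtain ⟨ha1, ha2⟩ := root_bounds n hn ‖A n c₁ j‖ (Y n c₁) (norm_nonneg _) hy1 hy2 hX1 hX2
  have hLs : ∀ c, L n c (j + 1) = (n - 1) / c + X n c j * L n c j / A n c j := fun c => rfl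
  have hbig : ∀ c ∈ DD n c₀ j, ‖((n : ℂ) - 1) / c‖ ≤ ‖L n c j‖ := by
    intro c hc
    rw [norm_div]
    have e : ‖(n : ℂ) - 1‖ = (n : ℝ) - 1 := by
      rw [show (n : ℂ) - 1 = (((n : ℝ) - 1 : ℝ) : ℂ) by push_cast; ring, Complex.norm_real,
        Real.norm_of_nonneg (by linarith)]
    rw [e]
    exact hG.big c hc
  -- lower bound for L at level j + 1
  have hlow : ∀ c ∈ DD n c₀ j, 0 < ‖A n c j‖ →
      ‖X n c j‖ * ‖L n c j‖ / ‖A n c j‖ - ‖L n c j‖ ≤ ‖L n c (j + 1)‖ := by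
    intro c hc ha
    rw [hLs]
    have h1 := norm_sub_norm_le (X n c j * L n c j / A n c j) (-(((n : ℂ) - 1) / c))
    rw [norm_neg, sub_neg_eq_add, add_comm (X n c j * L n c j / A n c j), norm_div, norm_mul] at h1
    linarith [hbig c hc]
  have hL1 : 9000 * L0 ≤ ‖L n c₁ (j + 1)‖ := by
    have h1 := hlow c₁ hc₁D (by linarith)
    have h2 : 9500 * L0 ≤ ‖X n c₁ j‖ * ‖L n c₁ j‖ / ‖A n c₁ j‖ := by
      rw [le_div_iff₀ (by linarith)]
      have h3 : 9800 * (49 / 50 * L0) ≤ ‖X n c₁ j‖ * ‖L n c₁ j‖ :=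
        mul_le_mul hx1 hl1 (by positivity) (by linarith)
      have h4 : 9500 * L0 * ‖A n c₁ j‖ ≤ 9500 * L0 * (101 / 100) :=
        mul_le_mul_of_nonneg_left ha2 (by positivity)
      linarith
    linarith
  have hsub : DD n c₁ (j + 1) ⊆ DD n c₀ j := by
    intro c hc
    unfold DD at hc ⊢
    rw [mem_closedBall] at hc ⊢
    have h1 : dist c₁ c₀ ≤ 1 / (200 * L0) := by
      have := hc₁
      unfold dd at this
      rwa [mem_closedBall] at this
    have h2 : 1 / (100 * ‖L n c₁ (j + 1)‖) ≤ 1 / (900000 * L0) :=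
      one_div_le_one_div_of_le (by positivity) (by linarith)
    have h3 := dist_triangle c c₁ c₀
    have h4 : 1 / (900000 * L0) + 1 / (200 * L0) ≤ 1 / (100 * L0) := by
      have e1 : 1 / (900000 * L0) = (1 / 900000) * (1 / L0) := by field_simp
      have e2 : 1 / (200 * L0) = (1 / 200) * (1 / L0) := by field_simp
      have e3 : 1 / (100 * L0) = (1 / 100) * (1 / L0) := by field_simp
      have e4 : 0 < 1 / L0 := by positivity
      rw [e1, e2, e3]
      linarith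
    rw [← hL0]
    linarith
  have hA : ∀ c ∈ DD n c₁ (j + 1), 87 / 100 ≤ ‖A n c j‖ ∧ ‖A n c j‖ ≤ 113 / 100 := by
    intro c hc
    have hcD := hsub hc
    obtain ⟨-, h2, -⟩ := hvar c hcD
    obtain ⟨-, h3, -⟩ := hvar c₁ hc₁D
    have h4 : ‖X n c j - X n c₁ j‖ ≤ 12 / 100 * n := by
      have e := norm_sub_le (X n c j - X n c₀ j) (X n c₁ j - X n c₀ j)
      rw [sub_sub_sub_cancel_right] at e
      linarith
    have h5 : ‖A n c j - A n c₁ j‖ ≤ 12 / 100 := by
      unfold A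
      rw [add_sub_add_left_eq_sub, ← sub_div, norm_div, Complex.norm_natCast, div_le_iff₀ hn0]
      exact h4
    have e1 := abs_norm_sub_norm_le (A n c j) (A n c₁ j)
    rw [abs_le] at e1
    constructor
    · linarith [e1.1]
    · linarith [e1.2]
  refine ⟨⟨by omega, ?_, ?_, ?_, ?_⟩, hsub, fun c hc => by linarith [(hA c hc).1]⟩
  · rw [← norm_pos_iff]
    have : 0 < 9000 * L0 := by positivity
    linarith
  · intro c hc
    obtain ⟨h1, h2⟩ := hG.nz c (hsub hc)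
    refine ⟨h1, fun i hi => ?_⟩
    rcases Nat.lt_succ_iff_lt_or_eq.1 hi with h3 | h3
    · exact h2 i h3
    · rw [h3, ← norm_pos_iff]
      linarith [(hA c hc).1]
  · intro c hc
    have hcD := hsub hc
    obtain ⟨h1, h2⟩ := hA c hc
    obtain ⟨g1, g2, g3, -, -⟩ := hfacts c hcD
    have h3 := hlow c hcD (by linarith)
    have hlp : 0 < ‖L n c j‖ := by
      have : 0 < 49 / 50 * L0 := by positivity
      linarith
    have h4 : 2 * ‖L n c j‖ ≤ ‖X n c j‖ * ‖L n c j‖ / ‖A n c j‖ := by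
      rw [le_div_iff₀ (by linarith)]
      have h5 : 2 * ‖L n c j‖ * ‖A n c j‖ ≤ 2 * ‖L n c j‖ * (113 / 100) :=
        mul_le_mul_of_nonneg_left h2 (by positivity)
      have h6 : 9800 * ‖L n c j‖ ≤ ‖X n c j‖ * ‖L n c j‖ := mul_le_mul_of_nonneg_right g3 hlp.le
      linarith
    have h7 := hG.big c hcD
    linarith
  · intro c hc
    have hcD := hsub hc
    obtain ⟨h1, h2⟩ := hA c hc
    obtain ⟨g1, g2, g3, -, -⟩ := hfacts c hcD
    have h3 := hlow c hcD (by linarith)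
    have h7 := hG.big c hcD
    have h8 := hG.nu c hcD
    have hc0 := (hG.nz c hcD).1
    have hlp : 0 < ‖L n c j‖ := by
      have : 0 < 49 / 50 * L0 := by positivity
      linarith
    have hap : 0 < ‖A n c j‖ := by linarith
    have hxp : 0 < ‖X n c j‖ := by linarith
    set l := ‖L n c j‖ with hl
    set a := ‖A n c j‖ with ha
    set x := ‖X n c j‖ with hx
    set e := x * l / a with he
    have hep : 0 < e := by positivity
    -- l in terms of e
    have hle : l = e * (a / x) := by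
      rw [he]
      field_simp
    have hax : a / x ≤ 12 / 100000 := by
      rw [div_le_iff₀ hxp]
      nlinarith
    have hax0 : 0 < a / x := by positivity
    have hl3 : l ≤ e * (12 / 100000) := by
      rw [hle]
      exact mul_le_mul_of_nonneg_left hax hep.le
    have hMs : M n c (j + 1) = -(((n : ℂ) - 1) / c ^ 2) +
        X n c j * (L n c j ^ 2 + M n c j) / A n c j -
        (X n c j * L n c j / A n c j) ^ 2 / n := rfl
    have t1 : ‖-(((n : ℂ) - 1) / c ^ 2)‖ ≤ l ^ 2 := by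
      rw [norm_neg, norm_div, norm_pow]
      have e0 : ‖(n : ℂ) - 1‖ = (n : ℝ) - 1 := by
        rw [show (n : ℂ) - 1 = (((n : ℝ) - 1 : ℝ) : ℂ) by push_cast; ring, Complex.norm_real,
          Real.norm_of_nonneg (by linarith)]
      rw [e0]
      have hcp : 0 < ‖c‖ := norm_pos_iff.2 hc0
      have e1 : ((n : ℝ) - 1) / ‖c‖ ^ 2 ≤ (((n : ℝ) - 1) / ‖c‖) ^ 2 := by
        rw [div_pow]
        refine div_le_div_of_nonneg_right ?_ (by positivity)
        nlinarith
      refine e1.trans (pow_le_pow_left₀ ?_ h7 2)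
      exact div_nonneg (by linarith) hcp.le
    have t2 : ‖X n c j * (L n c j ^ 2 + M n c j) / A n c j‖ ≤ 2 * (e * l) := by
      rw [norm_div, norm_mul]
      have e1 : ‖L n c j ^ 2 + M n c j‖ ≤ 2 * l ^ 2 := by
        refine (norm_add_le _ _).trans ?_
        rw [norm_pow]
        linarith
      calc x * ‖L n c j ^ 2 + M n c j‖ / a ≤ x * (2 * l ^ 2) / a := by
            refine div_le_div_of_nonneg_right ?_ hap.le
            exact mul_le_mul_of_nonneg_left e1 hxp.le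
        _ = 2 * (e * l) := by
            rw [he]
            ring
    have t3 : ‖(X n c j * L n c j / A n c j) ^ 2 / n‖ ≤ e ^ 2 / 10 ^ 6 := by
      rw [norm_div, norm_pow, norm_div, norm_mul, Complex.norm_natCast]
      exact div_le_div_of_nonneg_left (by positivity) (by positivity) hn'
    have hM : ‖M n c (j + 1)‖ ≤ l ^ 2 + 2 * (e * l) + e ^ 2 / 10 ^ 6 := by
      rw [hMs]
      refine (norm_sub_le _ _).trans ?_
      have := norm_add_le (-(((n : ℂ) - 1) / c ^ 2)) (X n c j * (L n c j ^ 2 + M n c j) / A n c j)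
      linarith
    have hL2 : 99 / 100 * e ≤ ‖L n c (j + 1)‖ := by linarith
    have hL3 : (99 / 100 * e) ^ 2 ≤ ‖L n c (j + 1)‖ ^ 2 := pow_le_pow_left₀ (by positivity) hL2 2
    have hl4 : l ^ 2 ≤ (e * (12 / 100000)) ^ 2 := pow_le_pow_left₀ hlp.le hl3 2
    have hl5 : e * l ≤ e * (e * (12 / 100000)) := mul_le_mul_of_nonneg_left hl3 hep.le
    have he2 : 0 < e ^ 2 := by positivity
    nlinarith

end Pool.Agent.W613.MB
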